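import Pool.Agent.D0H44.DM.Stm

/-!
# Project DM (helper44), module BC: Borel-Cantelli
-/

set_option autoImplicit false

namespace Pool.Agent.D0H30.DM

open Finset MeasureTheory Pool.Agent.D0H44.DM

/-- the sum of the squares over all dyadic intervals in `[0, 2 ^ m]` -/
noncomputable def SS (f : ℝ → ℝ) (m : ℕ) (p : ℝ × ℝ) : ℝ :=
  ∑ j ∈ range (m + 1), ∑ i ∈ range (2 ^ (m - j)),
    dd f ((i * 2 ^ j : ℕ) : ℝ) (((i + 1) * 2 ^ j : ℕ) : ℝ) p.1 p.2 ^ 2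

lemma SS_nonneg (f : ℝ → ℝ) (m : ℕ) (p : ℝ × ℝ) : 0 ≤ SS f m p :=
  sum_nonneg fun _ _ => sum_nonneg fun _ _ => sq_nonneg _

lemma SS_ofReal (f : ℝ → ℝ) (m : ℕ) (p : ℝ × ℝ) : ENNReal.ofReal (SS f m p) =
    ∑ j ∈ range (m + 1), ∑ i ∈ range (2 ^ (m - j)),
      ENNReal.ofReal (dd f ((i * 2 ^ j : ℕ) : ℝ) (((i + 1) * 2 ^ j : ℕ) : ℝ) p.1 p.2 ^ 2) := by
  unfold SS
  rw [ENNReal.ofReal_sum_of_nonneg (fun _ _ => sum_nonneg fun _ _ => sq_nonneg _)]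
  apply sum_congr rfl
  intro j _
  rw [ENNReal.ofReal_sum_of_nonneg (fun _ _ => sq_nonneg _)]

lemma int_SS (f : ℝ → ℝ) (hf : Continuous f) (R : Set (ℝ × ℝ)) (C : ℝ) (hC : 0 < C)
    (hm : ∀ x y : ℝ, AEMeasurable (fun p : ℝ × ℝ => dd f x y p.1 p.2) (volume.restrict R))
    (h : ∀ x y X : ℝ, 0 ≤ x → x ≤ y → y ≤ X → 1 ≤ X →
      ∫⁻ p in R, ENNReal.ofReal (dd f x y p.1 p.2 ^ 2) ≤
        ENNReal.ofReal (C * (1 + Real.log X) * ∫ t in x..y, f t ^ 2)) (m : ℕ) :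
    ∫⁻ p in R, ENNReal.ofReal (SS f m p) ≤
      ENNReal.ofReal (((m : ℝ) + 1) ^ 2 * C * ∫ t in (0 : ℝ)..((2 : ℝ) ^ m), f t ^ 2) := by
  have hmm : ∀ x y : ℝ, AEMeasurable (fun p : ℝ × ℝ => ENNReal.ofReal (dd f x y p.1 p.2 ^ 2))
      (volume.restrict R) := fun x y => ((hm x y).pow_const 2).ennreal_ofReal
  have hI0 : 0 ≤ ∫ t in (0 : ℝ)..((2 : ℝ) ^ m), f t ^ 2 :=
    intervalIntegral.integral_nonneg (by positivity) fun _ _ => sq_nonneg _
  have hX : (1 : ℝ) ≤ (2 : ℝ) ^ m := one_le_pow₀ (by norm_num)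
  have hlogX : Real.log ((2 : ℝ) ^ m) ≤ m := by
    rw [Real.log_pow]
    have : Real.log 2 ≤ 1 := by
      have := Real.log_two_lt_d9
      linarith
    have hm0 : (0 : ℝ) ≤ m := Nat.cast_nonneg _
    nlinarith
  have hlog0 : 0 ≤ Real.log ((2 : ℝ) ^ m) := Real.log_nonneg hX
  have hrow : ∀ j ∈ range (m + 1), ∑ i ∈ range (2 ^ (m - j)),
      ∫⁻ p in R, ENNReal.ofReal (dd f ((i * 2 ^ j : ℕ) : ℝ) (((i + 1) * 2 ^ j : ℕ) : ℝ) p.1 p.2 ^ 2) ≤
      ENNReal.ofReal (((m : ℝ) + 1) * C * ∫ t in (0 : ℝ)..((2 : ℝ) ^ m), f t ^ 2) := by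
    intro j hj
    have hjm : j ≤ m := Nat.lt_succ_iff.1 (mem_range.1 hj)
    have hpow : 2 ^ (m - j) * 2 ^ j = 2 ^ m := by
      rw [← pow_add, Nat.sub_add_cancel hjm]
    calc ∑ i ∈ range (2 ^ (m - j)),
        ∫⁻ p in R, ENNReal.ofReal (dd f ((i * 2 ^ j : ℕ) : ℝ) (((i + 1) * 2 ^ j : ℕ) : ℝ) p.1 p.2 ^ 2)
        ≤ ∑ i ∈ range (2 ^ (m - j)), ENNReal.ofReal (C * (1 + Real.log ((2 : ℝ) ^ m)) *
            ∫ t in ((i * 2 ^ j : ℕ) : ℝ)..(((i + 1) * 2 ^ j : ℕ) : ℝ), f t ^ 2) := by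
          apply sum_le_sum
          intro i hi
          apply h _ _ _ (Nat.cast_nonneg _) _ _ hX
          · exact_mod_cast Nat.mul_le_mul_right _ (Nat.le_succ i)
          · have : (i + 1) * 2 ^ j ≤ 2 ^ m := by
              rw [← hpow]
              exact Nat.mul_le_mul_right _ (mem_range.1 hi)
            exact_mod_cast this
      _ = ENNReal.ofReal (∑ i ∈ range (2 ^ (m - j)), C * (1 + Real.log ((2 : ℝ) ^ m)) *
            ∫ t in ((i * 2 ^ j : ℕ) : ℝ)..(((i + 1) * 2 ^ j : ℕ) : ℝ), f t ^ 2) := by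
          rw [ENNReal.ofReal_sum_of_nonneg]
          intro i _
          apply mul_nonneg (by positivity)
          apply intervalIntegral.integral_nonneg _ fun _ _ => sq_nonneg _
          exact_mod_cast Nat.mul_le_mul_right _ (Nat.le_succ i)
      _ = ENNReal.ofReal (C * (1 + Real.log ((2 : ℝ) ^ m)) * ∫ t in (0 : ℝ)..((2 : ℝ) ^ m), f t ^ 2) := by
          rw [← mul_sum]
          have e := intervalIntegral.sum_integral_adjacent_intervals (f := fun t : ℝ => f t ^ 2)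
            (μ := volume) (a := fun i : ℕ => ((i * 2 ^ j : ℕ) : ℝ)) (n := 2 ^ (m - j))
            (fun k _ => (hf.pow 2).intervalIntegrable _ _)
          rw [e]
          have e2 : ((0 * 2 ^ j : ℕ) : ℝ) = 0 := by simp
          have e3 : ((2 ^ (m - j) * 2 ^ j : ℕ) : ℝ) = (2 : ℝ) ^ m := by
            rw [hpow]
            push_cast
            rfl
          rw [e2, e3]
      _ ≤ _ := by
          apply ENNReal.ofReal_le_ofReal
          apply mul_le_mul_of_nonneg_right _ hI0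
          nlinarith
  simp only [SS_ofReal]
  rw [lintegral_finset_sum' _ (fun j _ => Finset.aemeasurable_fun_sum _ fun i _ => hmm _ _)]
  calc ∑ j ∈ range (m + 1), ∫⁻ p in R, ∑ i ∈ range (2 ^ (m - j)),
      ENNReal.ofReal (dd f ((i * 2 ^ j : ℕ) : ℝ) (((i + 1) * 2 ^ j : ℕ) : ℝ) p.1 p.2 ^ 2)
      = ∑ j ∈ range (m + 1), ∑ i ∈ range (2 ^ (m - j)), ∫⁻ p in R,
      ENNReal.ofReal (dd f ((i * 2 ^ j : ℕ) : ℝ) (((i + 1) * 2 ^ j : ℕ) : ℝ) p.1 p.2 ^ 2) := by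
        apply sum_congr rfl
        intro j _
        rw [lintegral_finset_sum' _ (fun i _ => hmm _ _)]
    _ ≤ ∑ j ∈ range (m + 1),
          ENNReal.ofReal (((m : ℝ) + 1) * C * ∫ t in (0 : ℝ)..((2 : ℝ) ^ m), f t ^ 2) := sum_le_sum hrow
    _ = ENNReal.ofReal (((m : ℝ) + 1) ^ 2 * C * ∫ t in (0 : ℝ)..((2 : ℝ) ^ m), f t ^ 2) := by
        rw [sum_const, card_range, nsmul_eq_mul]
        have e : ((m + 1 : ℕ) : ENNReal) = ENNReal.ofReal ((m : ℝ) + 1) := by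
          rw [ENNReal.ofReal_add (Nat.cast_nonneg _) zero_le_one]
          simp
        rw [e, ← ENNReal.ofReal_mul (by positivity)]
        congr 1
        ring

/-- the statement for one `ε` -/
lemma one_eps (hL2 : S_L2) (hDYA : S_DYA) (hMS : S_MS) (f : ℝ → ℝ) (A : ℝ) (hf : Continuous f)
    (hf0 : ∀ t, 0 ≤ f t) (hA : 0 ≤ A) (hM : Mom f A) (a B : ℝ) (ha : 0 < a) (hB : 0 < B)
    (ε : ℝ) (hε : 0 < ε) :
    ∀ᵐ p : ℝ × ℝ ∂(volume.restrict (Set.Icc a (2 * a) ×ˢ Set.Icc (-B) B)), ∃ C : ℝ, ∀ y : ℕ, 1 ≤ y →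
      |dd f 0 y p.1 p.2| ≤ C * (y : ℝ) ^ (A / 2 + ε) := by
  obtain ⟨hMS1, _, hMS3⟩ := hMS
  obtain ⟨C, hC, hL⟩ := hL2 a B ha hB
  obtain ⟨C', hC'⟩ := hM ε hε
  have hC'0 : 0 ≤ C' := by
    have h1 := hC' 1 le_rfl
    rw [Real.one_rpow, mul_one] at h1
    exact le_trans (intervalIntegral.integral_nonneg zero_le_one fun _ _ => sq_nonneg _) h1
  set R : Set (ℝ × ℝ) := Set.Icc a (2 * a) ×ˢ Set.Icc (-B) B with hR
  have hm : ∀ x y : ℝ, AEMeasurable (fun p : ℝ × ℝ => dd f x y p.1 p.2) (volume.restrict R) :=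
    fun x y => hMS1 f x y a B hf ha
  have hint := int_SS f hf R C hC hm (hL f hf hf0)
  set W : ℕ → ℝ := fun m => ((m : ℝ) + 1) * ((2 : ℝ) ^ m) ^ (-(A + 2 * ε)) with hW
  have hW0 : ∀ m, 0 ≤ W m := fun m => by rw [hW]; positivity
  have hSm : ∀ m, AEMeasurable (fun p => ENNReal.ofReal (SS f m p)) (volume.restrict R) := by
    intro m
    simp only [SS_ofReal]
    exact Finset.aemeasurable_fun_sum _ fun j _ => Finset.aemeasurable_fun_sum _ fun i _ =>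
      ((hm _ _).pow_const 2).ennreal_ofReal
  have hTm : ∀ m, AEMeasurable (fun p => ENNReal.ofReal (W m) * ENNReal.ofReal (SS f m p))
      (volume.restrict R) := fun m => (hSm m).const_mul _
  have hsum : ∫⁻ p in R, ∑' m : ℕ, ENNReal.ofReal (W m) * ENNReal.ofReal (SS f m p) ≠ ⊤ := by
    rw [lintegral_tsum hTm]
    have hr0 : 0 < (2 : ℝ) ^ (-ε) := by positivity
    have hr1 : (2 : ℝ) ^ (-ε) < 1 := Real.rpow_lt_one_of_one_lt_of_neg (by norm_num) (by linarith)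
    have hterm : ∀ m : ℕ, ∫⁻ p in R, ENNReal.ofReal (W m) * ENNReal.ofReal (SS f m p) ≤
        ENNReal.ofReal (((m : ℝ) + 1) ^ 3 * C * C' * ((2 : ℝ) ^ (-ε)) ^ m) := by
      intro m
      rw [lintegral_const_mul'' _ (hSm m)]
      refine (mul_le_mul_right (hint m) _).trans ?_
      rw [← ENNReal.ofReal_mul (hW0 m)]
      apply ENNReal.ofReal_le_ofReal
      have h1 := hC' ((2 : ℝ) ^ m) (one_le_pow₀ (by norm_num))
      have h2 : ((2 : ℝ) ^ m) ^ (-(A + 2 * ε)) * ((2 : ℝ) ^ m) ^ (A + ε) = ((2 : ℝ) ^ (-ε)) ^ m := by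
        rw [← Real.rpow_add (by positivity), ← Real.rpow_natCast, ← Real.rpow_mul (by norm_num),
          ← Real.rpow_natCast, ← Real.rpow_mul (by norm_num)]
        congr 1
        ring
      calc W m * (((m : ℝ) + 1) ^ 2 * C * ∫ t in (0 : ℝ)..((2 : ℝ) ^ m), f t ^ 2)
          ≤ W m * (((m : ℝ) + 1) ^ 2 * C * (C' * ((2 : ℝ) ^ m) ^ (A + ε))) := by
            apply mul_le_mul_of_nonneg_left _ (hW0 m)
            exact mul_le_mul_of_nonneg_left h1 (by positivity)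
        _ = ((m : ℝ) + 1) ^ 3 * C * C' *
            (((2 : ℝ) ^ m) ^ (-(A + 2 * ε)) * ((2 : ℝ) ^ m) ^ (A + ε)) := by
            rw [hW]
            ring
        _ = _ := by rw [h2]
    refine ne_top_of_le_ne_top ?_ (ENNReal.tsum_le_tsum hterm)
    apply Summable.tsum_ofReal_ne_top
    have hs : ∀ k : ℕ, Summable fun m : ℕ => (m : ℝ) ^ k * ((2 : ℝ) ^ (-ε)) ^ m := fun k =>
      summable_pow_mul_geometric_of_norm_lt_one k (by
        rw [Real.norm_of_nonneg hr0.le]; exact hr1)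
    have h3 := (((hs 3).add ((hs 2).mul_left 3)).add ((hs 1).mul_left 3)).add (hs 0)
    refine (h3.mul_left (C * C')).congr fun m => ?_
    ring
  have hmeas : AEMeasurable (fun p => ∑' m : ℕ, ENNReal.ofReal (W m) * ENNReal.ofReal (SS f m p))
      (volume.restrict R) := AEMeasurable.ennreal_tsum hTm
  have hfin := ae_lt_top' hmeas hsum
  have hRm : MeasurableSet R := measurableSet_Icc.prod measurableSet_Icc
  filter_upwards [hfin, ae_restrict_mem hRm] with p hp hpR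
  have hp1 : 0 < p.1 := lt_of_lt_of_le ha hpR.1.1
  set K : ℝ := (∑' m : ℕ, ENNReal.ofReal (W m) * ENNReal.ofReal (SS f m p)).toReal with hK
  have hK0 : 0 ≤ K := ENNReal.toReal_nonneg
  have hbound : ∀ m : ℕ, ((m : ℝ) + 1) * SS f m p ≤ K * ((2 : ℝ) ^ m) ^ (A + 2 * ε) := by
    intro m
    have h1 : ENNReal.ofReal (W m * SS f m p) ≤
        ∑' m : ℕ, ENNReal.ofReal (W m) * ENNReal.ofReal (SS f m p) := by
      rw [ENNReal.ofReal_mul (hW0 m)]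
      exact ENNReal.le_tsum m
    have h2 : W m * SS f m p ≤ K := (ENNReal.ofReal_le_iff_le_toReal hp.ne).1 h1
    have hq : 0 < ((2 : ℝ) ^ m) ^ (A + 2 * ε) := by positivity
    have h3 : ((m : ℝ) + 1) * SS f m p = W m * SS f m p * ((2 : ℝ) ^ m) ^ (A + 2 * ε) := by
      rw [hW]
      simp only
      rw [Real.rpow_neg (by positivity)]
      field_simp
    rw [h3]
    exact mul_le_mul_of_nonneg_right h2 hq.le
  refine ⟨Real.sqrt (K * 2 ^ (A + 2 * ε)), fun y hy => ?_⟩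
  set m := Nat.log 2 y + 1 with hmdef
  have hy1 : y ≤ 2 ^ m := (Nat.lt_pow_succ_log_self (by norm_num) y).le
  have hy2 : 2 ^ m ≤ 2 * y := by
    have := Nat.pow_log_le_self 2 (by omega : y ≠ 0)
    rw [hmdef, pow_succ]
    omega
  have hadd : ∀ u v w : ℕ, u ≤ v → v ≤ w →
      dd f (u : ℝ) (w : ℝ) p.1 p.2 = dd f (u : ℝ) (v : ℝ) p.1 p.2 + dd f (v : ℝ) (w : ℝ) p.1 p.2 :=
    fun u v w h1 h2 => hMS3 f u v w p.1 p.2 hf (by exact_mod_cast h1) (by exact_mod_cast h2) hp1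
  have h1 := hDYA (fun u v => dd f (u : ℝ) (v : ℝ) p.1 p.2) hadd m y hy1
  rw [Nat.cast_zero] at h1
  have h2 : dd f 0 y p.1 p.2 ^ 2 ≤ K * ((2 : ℝ) ^ m) ^ (A + 2 * ε) := h1.trans (hbound m)
  have hyR : (1 : ℝ) ≤ y := by exact_mod_cast hy
  have h3 : ((2 : ℝ) ^ m) ^ (A + 2 * ε) ≤ 2 ^ (A + 2 * ε) * (y : ℝ) ^ (A + 2 * ε) := by
    rw [← Real.mul_rpow (by norm_num) (by positivity)]
    apply Real.rpow_le_rpow (by positivity) _ (by positivity)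
    exact_mod_cast hy2
  have h4 : dd f 0 y p.1 p.2 ^ 2 ≤ (K * 2 ^ (A + 2 * ε)) * (y : ℝ) ^ (A + 2 * ε) := by
    refine h2.trans ?_
    calc K * ((2 : ℝ) ^ m) ^ (A + 2 * ε) ≤ K * (2 ^ (A + 2 * ε) * (y : ℝ) ^ (A + 2 * ε)) :=
          mul_le_mul_of_nonneg_left h3 hK0
      _ = _ := by ring
  have h5 : Real.sqrt ((y : ℝ) ^ (A + 2 * ε)) = (y : ℝ) ^ (A / 2 + ε) := by
    rw [Real.sqrt_eq_rpow, ← Real.rpow_mul (by positivity)]
    congr 1
    ring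
  calc |dd f 0 y p.1 p.2| = Real.sqrt (dd f 0 y p.1 p.2 ^ 2) := (Real.sqrt_sq_eq_abs _).symm
    _ ≤ Real.sqrt ((K * 2 ^ (A + 2 * ε)) * (y : ℝ) ^ (A + 2 * ε)) := Real.sqrt_le_sqrt h4
    _ = Real.sqrt (K * 2 ^ (A + 2 * ε)) * (y : ℝ) ^ (A / 2 + ε) := by
        rw [Real.sqrt_mul (by positivity), h5]

/-- Borel-Cantelli -/
theorem t_BC : S_L2 → S_DYA → S_MS → S_BC := by
  intro hL2 hDYA hMS f A hf hf0 hA hM a B ha hB
  have h : ∀ k : ℕ, ∀ᵐ p : ℝ × ℝ ∂(volume.restrict (Set.Icc a (2 * a) ×ˢ Set.Icc (-B) B)),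
      ∃ C : ℝ, ∀ y : ℕ, 1 ≤ y → |dd f 0 y p.1 p.2| ≤ C * (y : ℝ) ^ (A / 2 + 1 / ((k : ℝ) + 1)) :=
    fun k => one_eps hL2 hDYA hMS f A hf hf0 hA hM a B ha hB _ (by positivity)
  rw [← ae_all_iff] at h
  filter_upwards [h] with p hp ε hε
  obtain ⟨k, hk⟩ := exists_nat_one_div_lt hε
  obtain ⟨C, hC⟩ := hp k
  refine ⟨C, fun y hy => (hC y hy).trans ?_⟩
  have hyR : (1 : ℝ) ≤ y := by exact_mod_cast hy
  have hC0 : 0 ≤ C := by
    have h1 := hC 1 le_rfl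
    rw [Nat.cast_one, Real.one_rpow, mul_one] at h1
    exact (abs_nonneg _).trans h1
  exact mul_le_mul_of_nonneg_left (Real.rpow_le_rpow_of_exponent_le hyR (by linarith)) hC0

end Pool.Agent.D0H30.DM
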