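import Pool.Agent.D0H44.DM.Stm

/-!
# Project DM (helper44), module DYA: the dyadic trick
-/

set_option autoImplicit false

namespace Pool.Agent.D0H30.DM

open Finset Pool.Agent.D0H44.DM

/-- the sum of the squares over the dyadic intervals of length `2 ^ j` in `[a, a + 2 ^ m]` -/
noncomputable def Sj (D : ℕ → ℕ → ℝ) (j m a : ℕ) : ℝ :=
  ∑ i ∈ range (2 ^ (m - j)), D (a + i * 2 ^ j) (a + (i + 1) * 2 ^ j) ^ 2

lemma Sj_nonneg (D : ℕ → ℕ → ℝ) (j m a : ℕ) : 0 ≤ Sj D j m a :=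
  sum_nonneg fun _ _ => sq_nonneg _

lemma Sj_split (D : ℕ → ℕ → ℝ) (j m a : ℕ) (h : j ≤ m) :
    Sj D j (m + 1) a = Sj D j m a + Sj D j m (a + 2 ^ m) := by
  unfold Sj
  have h1 : 2 ^ (m + 1 - j) = 2 ^ (m - j) + 2 ^ (m - j) := by
    rw [Nat.sub_add_comm h, pow_succ]
    ring
  have h2 : 2 ^ m = 2 ^ (m - j) * 2 ^ j := by
    rw [← pow_add, Nat.sub_add_cancel h]
  rw [h1, sum_range_add]
  congr 1
  apply sum_congr rfl
  intro i _
  have e1 : a + (2 ^ (m - j) + i) * 2 ^ j = a + 2 ^ m + i * 2 ^ j := by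
    rw [h2]; ring
  have e2 : a + (2 ^ (m - j) + i + 1) * 2 ^ j = a + 2 ^ m + (i + 1) * 2 ^ j := by
    rw [h2]; ring
  rw [e1, e2]

lemma top (D : ℕ → ℕ → ℝ) (m a : ℕ) : Sj D m m a = D a (a + 2 ^ m) ^ 2 := by
  unfold Sj
  simp

lemma key (D : ℕ → ℕ → ℝ) (hD : ∀ u v w, u ≤ v → v ≤ w → D u w = D u v + D v w) (m : ℕ) :
    ∀ a y : ℕ, y < 2 ^ m → |D a (a + y)| ≤ ∑ j ∈ range m, Real.sqrt (Sj D j m a) := by
  induction m with
  | zero =>
    intro a y hy
    have h0 : y = 0 := by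
      rw [pow_zero] at hy
      omega
    have h1 := hD a a a le_rfl le_rfl
    have h2 : D a a = 0 := by linarith
    rw [h0, add_zero, h2, abs_zero, range_zero, sum_empty]
  | succ m ih =>
    intro a y hy
    rw [sum_range_succ]
    have hmono : ∀ j ∈ range m, Real.sqrt (Sj D j m a) ≤ Real.sqrt (Sj D j (m + 1) a) := by
      intro j hj
      apply Real.sqrt_le_sqrt
      rw [Sj_split D j m a (mem_range.1 hj).le]
      linarith [Sj_nonneg D j m (a + 2 ^ m)]
    have hmono2 : ∀ j ∈ range m, Real.sqrt (Sj D j m (a + 2 ^ m)) ≤ Real.sqrt (Sj D j (m + 1) a) := by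
      intro j hj
      apply Real.sqrt_le_sqrt
      rw [Sj_split D j m a (mem_range.1 hj).le]
      linarith [Sj_nonneg D j m a]
    rcases Nat.lt_or_ge y (2 ^ m) with h | h
    · have h1 := ih a y h
      have h2 := sum_le_sum hmono
      have h3 := Real.sqrt_nonneg (Sj D m (m + 1) a)
      linarith
    · obtain ⟨z, rfl⟩ := Nat.exists_eq_add_of_le h
      have hz : z < 2 ^ m := by
        rw [pow_succ] at hy
        omega
      have h1 := hD a (a + 2 ^ m) (a + (2 ^ m + z)) (by omega) (by omega)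
      have e1 : a + (2 ^ m + z) = (a + 2 ^ m) + z := by ring
      have h2 := ih (a + 2 ^ m) z hz
      have h3 := sum_le_sum hmono2
      have h4 : |D a (a + 2 ^ m)| ≤ Real.sqrt (Sj D m (m + 1) a) := by
        rw [← Real.sqrt_sq_eq_abs]
        apply Real.sqrt_le_sqrt
        rw [Sj_split D m m a le_rfl, top]
        linarith [Sj_nonneg D m m (a + 2 ^ m)]
      rw [h1, e1]
      calc |D a (a + 2 ^ m) + D (a + 2 ^ m) (a + 2 ^ m + z)|
          ≤ |D a (a + 2 ^ m)| + |D (a + 2 ^ m) (a + 2 ^ m + z)| := abs_add_le _ _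
        _ ≤ _ := by linarith

/-- the dyadic trick -/
theorem t_DYA : S_DYA := by
  intro D hD m y hy
  have h1 : |D 0 y| ≤ ∑ j ∈ range (m + 1), Real.sqrt (Sj D j m 0) := by
    rw [sum_range_succ]
    rcases Nat.lt_or_ge y (2 ^ m) with h | h
    · have h2 := key D hD m 0 y h
      rw [zero_add] at h2
      linarith [Real.sqrt_nonneg (Sj D m m 0)]
    · have h2 : y = 2 ^ m := le_antisymm hy h
      have h3 : |D 0 y| = Real.sqrt (Sj D m m 0) := by
        rw [top, zero_add, h2, Real.sqrt_sq_eq_abs]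
      rw [h3]
      have : 0 ≤ ∑ j ∈ range m, Real.sqrt (Sj D j m 0) := sum_nonneg fun _ _ => Real.sqrt_nonneg _
      linarith
  have h2 : D 0 y ^ 2 ≤ (∑ j ∈ range (m + 1), Real.sqrt (Sj D j m 0)) ^ 2 := by
    rw [← sq_abs (D 0 y)]
    exact pow_le_pow_left₀ (abs_nonneg _) h1 2
  have h3 := sq_sum_le_card_mul_sum_sq (s := range (m + 1)) (f := fun j => Real.sqrt (Sj D j m 0))
  rw [card_range] at h3
  have h4 : ∑ j ∈ range (m + 1), Real.sqrt (Sj D j m 0) ^ 2 =
      ∑ j ∈ range (m + 1), ∑ i ∈ range (2 ^ (m - j)), D (i * 2 ^ j) ((i + 1) * 2 ^ j) ^ 2 := by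
    apply sum_congr rfl
    intro j _
    rw [Real.sq_sqrt (Sj_nonneg D j m 0)]
    unfold Sj
    simp only [zero_add]
  rw [h4] at h3
  push_cast at h3
  exact h2.trans h3

end Pool.Agent.D0H30.DM
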